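import Pool.Agent.Q281.DB.Eq

/-!
Structural part: the bimagmas with the four identities are the division bimagmas of the inverse
semigroups.
-/

set_option autoImplicit false

namespace Pool.Agent.Q281.DB

universe u
variable {S : Type u}

/-- `(S, ·, ')` is an inverse semigroup: a semigroup in which `inv x` is the unique `y` with
`x y x = x` and `y x y = y`. -/
structure IsInverseSemigroup (mul : S → S → S) (inv : S → S) : Prop where
  assoc : ∀ x y z, mul (mul x y) z = mul x (mul y z)
  mul_inv_mul : ∀ x, mul (mul x (inv x)) x = x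
  inv_mul_inv : ∀ x, mul (mul (inv x) x) (inv x) = inv x
  unique : ∀ x y, mul (mul x y) x = x → mul (mul y x) y = y → y = inv x

/-- The bimagma `(S, \, /)` is the division bimagma of an inverse semigroup on the set `S`. -/
def IsDivisionBimagma (ld rd : S → S → S) : Prop :=
  ∃ (mul : S → S → S) (inv : S → S), IsInverseSemigroup mul inv ∧
    (∀ x y, ld x y = mul (inv x) y) ∧ (∀ x y, rd x y = mul x (inv y))

section inverse
variable [Semigroup S] {inv : S → S}

theorem inv_inv' (h : IsInverseSemigroup (S := S) (· * ·) inv) (x : S) : inv (inv x) = x :=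
  (h.unique (inv x) x (h.inv_mul_inv x) (h.mul_inv_mul x)).symm

theorem idem_inv (h : IsInverseSemigroup (S := S) (· * ·) inv) {e : S} (he : e * e = e) :
    inv e = e := by
  symm
  apply h.unique e e
  · show e * e * e = e
    rw [he, he]
  · show e * e * e = e
    rw [he, he]

theorem idem_mul (h : IsInverseSemigroup (S := S) (· * ·) inv) {e f : S} (he : e * e = e)
    (hf : f * f = f) : (e * f) * (e * f) = e * f := by
  set g := inv (e * f) with hg
  have h1 : (e * f) * g * (e * f) = e * f := h.mul_inv_mul (e * f)
  have h2 : g * (e * f) * g = g := h.inv_mul_inv (e * f)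
  have h3 : f * g * e = g := by
    apply h.unique (e * f) (f * g * e)
    · show (e * f) * (f * g * e) * (e * f) = e * f
      calc (e * f) * (f * g * e) * (e * f) = e * (f * f) * g * ((e * e) * f) := by
            simp only [mul_assoc]
        _ = (e * f) * g * (e * f) := by rw [he, hf]
        _ = e * f := h1
    · show (f * g * e) * (e * f) * (f * g * e) = f * g * e
      calc (f * g * e) * (e * f) * (f * g * e) = f * (g * ((e * e) * (f * f)) * g) * e := by
            simp only [mul_assoc]
        _ = f * (g * (e * f) * g) * e := by rw [he, hf]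
        _ = f * g * e := by rw [h2]
  have h4 : g * g = g := by
    calc g * g = (f * g * e) * (f * g * e) := by rw [h3]
      _ = f * (g * (e * f) * g) * e := by simp only [mul_assoc]
      _ = f * g * e := by rw [h2]
      _ = g := h3
  have h5 : inv g = g := idem_inv h h4
  have h6 : inv g = e * f := inv_inv' h (e * f)
  rw [← h6, h5, h4]

theorem idem_comm (h : IsInverseSemigroup (S := S) (· * ·) inv) {e f : S} (he : e * e = e)
    (hf : f * f = f) : e * f = f * e := by
  have h1 := idem_mul h he hf
  have h2 := idem_mul h hf he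
  have h3 : inv (e * f) = e * f := idem_inv h h1
  rw [← h3]
  symm
  apply h.unique (e * f) (f * e)
  · show (e * f) * (f * e) * (e * f) = e * f
    calc (e * f) * (f * e) * (e * f) = e * (f * f) * ((e * e) * f) := by simp only [mul_assoc]
      _ = (e * f) * (e * f) := by rw [he, hf]
      _ = e * f := h1
  · show (f * e) * (e * f) * (f * e) = f * e
    calc (f * e) * (e * f) * (f * e) = f * (e * e) * ((f * f) * e) := by simp only [mul_assoc]
      _ = (f * e) * (f * e) := by rw [he, hf]
      _ = f * e := h2

theorem idem1 (h : IsInverseSemigroup (S := S) (· * ·) inv) (x : S) :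
    (x * inv x) * (x * inv x) = x * inv x := by
  have := h.mul_inv_mul x
  change x * inv x * x = x at this
  rw [← mul_assoc, this]

theorem idem2 (h : IsInverseSemigroup (S := S) (· * ·) inv) (x : S) :
    (inv x * x) * (inv x * x) = inv x * x := by
  have := h.inv_mul_inv x
  change inv x * x * inv x = inv x at this
  rw [← mul_assoc, this]

theorem inv_mul' (h : IsInverseSemigroup (S := S) (· * ·) inv) (x y : S) :
    inv (x * y) = inv y * inv x := by
  symm
  have hx : x * inv x * x = x := h.mul_inv_mul x
  have hy : y * inv y * y = y := h.mul_inv_mul y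
  have hx' : inv x * x * inv x = inv x := h.inv_mul_inv x
  have hy' : inv y * y * inv y = inv y := h.inv_mul_inv y
  have hc : (y * inv y) * (inv x * x) = (inv x * x) * (y * inv y) :=
    idem_comm h (idem1 h y) (idem2 h x)
  apply h.unique (x * y) (inv y * inv x)
  · show (x * y) * (inv y * inv x) * (x * y) = x * y
    calc (x * y) * (inv y * inv x) * (x * y) = x * ((y * inv y) * (inv x * x)) * y := by
          simp only [mul_assoc]
      _ = (x * inv x * x) * (y * inv y * y) := by rw [hc]; simp only [mul_assoc]
      _ = x * y := by rw [hx, hy]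
  · show (inv y * inv x) * (x * y) * (inv y * inv x) = inv y * inv x
    calc (inv y * inv x) * (x * y) * (inv y * inv x)
        = inv y * ((inv x * x) * (y * inv y)) * inv x := by simp only [mul_assoc]
      _ = (inv y * y * inv y) * (inv x * x * inv x) := by rw [← hc]; simp only [mul_assoc]
      _ = inv y * inv x := by rw [hx', hy']

/-- The identities hold in the division bimagmas. -/
theorem identities_hold (h : IsInverseSemigroup (S := S) (· * ·) inv) :
    (∀ x y z : S, inv (x * inv y) * z = y * inv (inv z * x)) ∧
    (∀ x : S, inv (x * inv x) * x = x) ∧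
    (∀ x y : S, inv (inv x * x) * (inv y * y) = inv (inv y * y) * (inv x * x)) ∧
    (∀ x y : S, (x * inv x) * inv (y * inv y) = (y * inv y) * inv (x * inv x)) := by
  refine ⟨fun x y z => ?_, fun x => ?_, fun x y => ?_, fun x y => ?_⟩
  · rw [inv_mul' h, inv_inv' h, inv_mul' h, inv_inv' h, mul_assoc]
  · rw [idem_inv h (idem1 h x)]
    exact h.mul_inv_mul x
  · rw [idem_inv h (idem2 h x), idem_inv h (idem2 h y)]
    exact idem_comm h (idem2 h x) (idem2 h y)
  · rw [idem_inv h (idem1 h x), idem_inv h (idem1 h y)]
    exact idem_comm h (idem1 h x) (idem1 h y)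

end inverse

section converse
variable (ld rd : S → S → S)

/-- The four identities. -/
structure Four : Prop where
  one : ∀ x y z, ld (rd x y) z = rd y (ld z x)
  two : ∀ x, ld (rd x x) x = x
  three : ∀ x y, ld (ld x x) (ld y y) = ld (ld y y) (ld x x)
  four : ∀ x y, rd (rd x x) (rd y y) = rd (rd y y) (rd x x)

variable {ld rd}

theorem k3 (h : Four ld rd) (x y : S) : rd x (ld y (rd y y)) = ld (ld x (rd x x)) y :=
  t3 ld rd (fun x0 x1 x2 => (h.one x2 x0 x1).symm) h.two h.three h.four x y

theorem k4 (h : Four ld rd) (x y : S) :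
    ld (rd x y) (rd (rd x y) (rd x y)) = rd y x :=
  t4 ld rd (fun x0 x1 x2 => (h.one x2 x0 x1).symm) h.two h.three h.four (k3 h) x y

theorem k4d (h : Four ld rd) (x y : S) :
    ld (ld x y) (rd (ld x y) (ld x y)) = ld y x :=
  t4d ld rd (fun x0 x1 x2 => (h.one x2 x0 x1).symm) h.two h.three h.four (k3 h) (k4 h) x y

theorem self_eq (h : Four ld rd) (x : S) : rd x (ld x x) = x := by
  rw [← h.one, h.two]

/-- The inverse. -/
def iv (ld rd : S → S → S) (x : S) : S := ld x (rd x x)

theorem iv_rd (h : Four ld rd) (x y : S) : iv ld rd (rd x y) = rd y x := k4 h x y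
theorem iv_ld (h : Four ld rd) (x y : S) : iv ld rd (ld x y) = ld y x := k4d h x y
theorem rd_iv (h : Four ld rd) (x y : S) : rd x (iv ld rd y) = ld (iv ld rd x) y := k3 h x y

theorem iv_iv (h : Four ld rd) (x : S) : iv ld rd (iv ld rd x) = x := by
  have h1 := self_eq h x
  calc iv ld rd (iv ld rd x) = iv ld rd (iv ld rd (rd x (ld x x))) := by rw [h1]
    _ = rd x (ld x x) := by rw [iv_rd h, iv_rd h]
    _ = x := h1

theorem ld_iv (h : Four ld rd) (x y : S) : ld x (iv ld rd y) = rd (iv ld rd x) y := by
  have := rd_iv h (iv ld rd x) (iv ld rd y)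
  rw [iv_iv h, iv_iv h] at this
  exact this.symm

/-- The semigroup. -/
@[reducible] def sg (h : Four ld rd) : Semigroup S where
  mul x y := rd x (iv ld rd y)
  mul_assoc x y z := by
    show rd (rd x (iv ld rd y)) (iv ld rd z) = rd x (iv ld rd (rd y (iv ld rd z)))
    rw [rd_iv h (rd x (iv ld rd y)) z, iv_rd h, h.one, ld_iv h, iv_rd h]

theorem division_of_four (h : Four ld rd) : IsDivisionBimagma ld rd := by
  letI := sg h
  have hm : ∀ x y : S, x * y = rd x (iv ld rd y) := fun _ _ => rfl
  set i := iv ld rd with hi
  have hii : ∀ x, i (i x) = x := iv_iv h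
  have hird : ∀ x y, i (rd x y) = rd y x := iv_rd h
  have hild : ∀ x y, i (ld x y) = ld y x := iv_ld h
  have hrdi : ∀ x y, rd x (i y) = ld (i x) y := rd_iv h
  have hld : ∀ x y, ld x y = i x * y := by
    intro x y
    rw [hm, hrdi, hii]
  have hrd : ∀ x y, rd x y = x * i y := by
    intro x y
    rw [hm, hii]
  have h1 : ∀ x, x * i x * x = x := by
    intro x
    rw [← hrd, hm, hrdi, hird, h.two]
  have h2 : ∀ x, i x * x * i x = i x := by
    intro x
    have := h1 (i x)
    rwa [hii] at this
  have hanti : ∀ x y, i (x * y) = i y * i x := by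
    intro x y
    rw [hm, hird, ← hrd]
  -- projections commute
  have hp : ∀ x y, (i x * x) * (i y * y) = (i y * y) * (i x * x) := by
    intro x y
    have h3 : ∀ x y : S, (i x * x) * (i y * y) = ld (ld x x) (ld y y) := by
      intro x y
      rw [hld (ld x x), hild, ← hld, ← hld]
    rw [h3, h3, h.three]
  have hidem : ∀ e : S, e * e = e → i e = e := by
    intro e he
    have e1 : (e * i e) * (i e * e) = e := by
      calc (e * i e) * (i e * e) = e * (i e * i e) * e := by simp only [mul_assoc]
        _ = e * i e * e := by rw [← hanti, he]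
        _ = e := h1 e
    have e2 : (i e * e) * (e * i e) = e := by
      have := hp e (i e)
      rw [hii] at this
      rw [this, e1]
    calc i e = i ((e * i e) * (i e * e)) := by rw [e1]
      _ = (i e * e) * (e * i e) := by rw [hanti, hanti, hanti, hii]
      _ = e := e2
  have hcomm : ∀ e f : S, e * e = e → f * f = f → e * f = f * e := by
    intro e f he hf
    have := hp e f
    rw [hidem e he, hidem f hf, he, hf] at this
    exact this
  refine ⟨fun x y => x * y, i, ⟨fun x y z => mul_assoc x y z, h1, h2, ?_⟩, hld, hrd⟩
  intro x y hx hy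
  change x * y * x = x at hx
  change y * x * y = y at hy
  have a1 : (x * y) * (x * y) = x * y := by rw [← mul_assoc, hx]
  have a2 : (y * x) * (y * x) = y * x := by rw [← mul_assoc, hy]
  have a3 : (x * i x) * (x * i x) = x * i x := by rw [← mul_assoc, h1]
  have a4 : (i x * x) * (i x * x) = i x * x := by rw [← mul_assoc, h2]
  have b1 : y = y * x * i x := by
    calc y = y * x * y := hy.symm
      _ = y * (x * i x * x) * y := by rw [h1]
      _ = y * ((x * i x) * (x * y)) := by simp only [mul_assoc]
      _ = y * ((x * y) * (x * i x)) := by rw [hcomm _ _ a3 a1]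
      _ = (y * x * y) * x * i x := by simp only [mul_assoc]
      _ = y * x * i x := by rw [hy]
  have b2 : y * x * i x = i x := by
    calc y * x * i x = y * x * (i x * x * i x) := by rw [h2]
      _ = ((y * x) * (i x * x)) * i x := by simp only [mul_assoc]
      _ = ((i x * x) * (y * x)) * i x := by rw [hcomm _ _ a2 a4]
      _ = i x * (x * y * x) * i x := by simp only [mul_assoc]
      _ = i x := by rw [hx, h2]
  rw [b1, b2]

end converse

/-- The characterization. -/
theorem four_iff (ld rd : S → S → S) : Four ld rd ↔ IsDivisionBimagma ld rd := by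
  refine ⟨division_of_four, ?_⟩
  rintro ⟨mul, inv, h, hl, hr⟩
  letI : Semigroup S := { mul := mul, mul_assoc := h.assoc }
  have h' : IsInverseSemigroup (S := S) (· * ·) inv := h
  obtain ⟨g1, g2, g3, g4⟩ := identities_hold h'
  have hl' : ∀ x y : S, ld x y = inv x * y := hl
  have hr' : ∀ x y : S, rd x y = x * inv y := hr
  refine ⟨fun x y z => ?_, fun x => ?_, fun x y => ?_, fun x y => ?_⟩
  · simp only [hl', hr']; exact g1 x y z
  · simp only [hl', hr']; exact g2 x
  · simp only [hl']; exact g3 x y
  · simp only [hr']; exact g4 x y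

end Pool.Agent.Q281.DB
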