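import Mathlib

/-!
Equational part: in a bimagma with `(x/y)\z = y/(z\x)`, `(x/x)\x = x` in which the elements `x\x`
commute in the sense of `\` and the elements `x/x` in the sense of `/`, one has
`x/y' = x'\y`, `(x/y)' = y/x` and `(x\y)' = y\x`, where `x' = x\(x/x)`.
`b` is the left division `\`, `d` is the right division `/`. The proofs are machine generated.
-/

set_option autoImplicit false
set_option linter.unusedVariables false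

namespace Pool.Agent.Q281.DB

universe u
variable {S : Type u}

theorem t3 (b d : S → S → S)
    (ax1 : ∀ x0 x1 x2, (d x0 (b x1 x2)) = (b (d x2 x0) x1))
    (ax2 : ∀ x0, (b (d x0 x0) x0) = x0)
    (ax3 : ∀ x0 x1, (b (b x0 x0) (b x1 x1)) = (b (b x1 x1) (b x0 x0)))
    (ax4 : ∀ x0 x1, (d (d x0 x0) (d x1 x1)) = (d (d x1 x1) (d x0 x0))) (p q : S) :
    (d p (b q (d q q))) = (b (b p (d p p)) q) := by
  have e4 : ∀ x0 x1 , (b (d x0 x1) (d x0 x0)) = (d x1 x0) := fun x0 x1 => ((ax1 x1 (d x0 x0) x0).symm).trans (congrArg (fun Z => (d x1 Z)) (ax2 x0))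
  have e5 : ∀ x0 x1 , (b (b (b (d x0 x0) x1) x1) (b x1 x0)) = (b x1 x0) := fun x0 x1 => (((congrArg (fun Z => (b (b Z x1) (b x1 x0))) (ax1 x0 x1 x0).symm)).trans (congrArg (fun Z => (b Z (b x1 x0))) (ax1 (b x1 x0) x1 x0).symm)).trans (ax2 (b x1 x0))
  have e6 : ∀ x0 , (b (b x0 x0) (b x0 x0)) = (b x0 x0) := fun x0 => ((congrArg (fun Z => (b (b Z x0) (b x0 x0))) (ax2 x0).symm)).trans (e5 x0 x0)
  have e7 : ∀ x0 x1 x2 , (b (d (d x0 x0) x1) (d x0 x2)) = (d x1 (d x2 x0)) := fun x0 x1 x2 => ((ax1 x1 (d x0 x2) (d x0 x0)).symm).trans (congrArg (fun Z => (d x1 Z)) (e4 x0 x2))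
  have e8 : ∀ x0 , (d (d x0 x0) (d x0 x0)) = (d x0 x0) := fun x0 => ((e7 x0 (d x0 x0) x0).symm).trans (ax2 (d x0 x0))
  have e9 : ∀ x0 x1 x2 , (b (b (d x0 x1) x2) (d x1 x1)) = (d (b x2 x0) x1) := fun x0 x1 x2 => ((congrArg (fun Z => (b Z (d x1 x1))) (ax1 x1 x2 x0).symm)).trans (e4 x1 (b x2 x0))
  have e10 : ∀ x0 , (d (b x0 x0) x0) = (b x0 (d x0 x0)) := fun x0 => ((e9 x0 x0 x0).symm).trans (congrArg (fun Z => (b Z (d x0 x0))) (ax2 x0))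
  have e11 : ∀ x0 x1 , (b (d (b x0 x0) x1) (b x0 x0)) = (b (d x0 x1) x0) := fun x0 x1 => (((ax1 x1 (b x0 x0) (b x0 x0)).symm).trans (congrArg (fun Z => (d x1 Z)) (e6 x0))).trans (ax1 x1 x0 x0)
  have e12 : ∀ x0 x1 , (d (d x0 x0) (d x1 x0)) = (b (d x0 x0) (d x0 x1)) := fun x0 x1 => ((e7 x0 (d x0 x0) x1).symm).trans (congrArg (fun Z => (b Z (d x0 x1))) (e8 x0))
  have e18 : ∀ x0 x1 , (b (d x0 x0) (b x1 x1)) = (b (b x1 x1) (d x0 x0)) := fun x0 x1 => (((congrArg (fun Z => (b Z (b x1 x1))) (e4 x0 x0).symm)).trans (ax3 (d x0 x0) x1)).trans (congrArg (fun Z => (b (b x1 x1) Z)) (e4 x0 x0))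
  have e19 : ∀ x0 x1 x2 x3 , (b (d (d x0 x1) x2) (d (d x0 x0) x3)) = (d x2 (d x3 (d x1 x0))) := fun x0 x1 x2 x3 => ((ax1 x2 (d (d x0 x0) x3) (d x0 x1)).symm).trans (congrArg (fun Z => (d x2 Z)) (e7 x0 x3 x1))
  have e20 : ∀ x0 x1 x2 x3 , (b (b (d x0 (d x1 x1)) x2) (d x1 x3)) = (d (b x2 x0) (d x3 x1)) := fun x0 x1 x2 x3 => ((congrArg (fun Z => (b Z (d x1 x3))) (ax1 (d x1 x1) x2 x0).symm)).trans (e7 x1 (b x2 x0) x3)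
  have e21 : ∀ x0 x1 x2 x3 , (b (d (d x0 x0) x1) (b (d x2 x0) x3)) = (d x1 (d (b x3 x2) x0)) := fun x0 x1 x2 x3 => ((congrArg (fun Z => (b (d (d x0 x0) x1) Z)) (ax1 x0 x3 x2).symm)).trans (e7 x0 x1 (b x3 x2))
  have e22 : ∀ x0 x1 x2 , (b (d (d x0 x0) (d x1 x1)) (d x1 x2)) = (d (d x0 x0) (d x2 x1)) := fun x0 x1 x2 => ((congrArg (fun Z => (b Z (d x1 x2))) (ax4 x1 x0).symm)).trans (e7 x1 (d x0 x0) x2)
  have e23 : ∀ x0 x1 , (b (b (b (d x0 x0) x1) x1) (b x1 (d x0 x0))) = (b x1 (d x0 x0)) := fun x0 x1 => ((congrArg (fun Z => (b (b (b Z x1) x1) (b x1 (d x0 x0)))) (e8 x0).symm)).trans (e5 (d x0 x0) x1)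
  have e26 : ∀ x0 x1 x2 , (b (d (b x0 x0) x1) (d (b x0 x0) x2)) = (b (d x0 x1) (d x0 x2)) := fun x0 x1 x2 => (((ax1 x1 (d (b x0 x0) x2) (b x0 x0)).symm).trans (congrArg (fun Z => (d x1 Z)) (e11 x0 x2))).trans (ax1 x1 (d x0 x2) x0)
  have e27 : ∀ x0 x1 x2 , (b (b (b (d x0 x1) x0) x2) (b x0 x0)) = (b (b (d x1 x0) x2) x0) := fun x0 x1 x2 => ((((congrArg (fun Z => (b (b Z x2) (b x0 x0))) (ax1 x1 x0 x0).symm)).trans (congrArg (fun Z => (b Z (b x0 x0))) (ax1 (b x0 x0) x2 x1).symm)).trans (e11 x0 (b x2 x1))).trans (congrArg (fun Z => (b Z x0)) (ax1 x0 x2 x1))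
  have e28 : ∀ x0 x1 , (b (b (d x0 x0) x1) x0) = (b (b x0 x1) (b x0 x0)) := fun x0 x1 => ((e27 x0 x0 x1).symm).trans (congrArg (fun Z => (b (b Z x1) (b x0 x0))) (ax2 x0))
  have e29 : ∀ x0 x1 x2 , (b (b (d x0 x0) (d x0 x1)) (d x0 x2)) = (d (d x1 x0) (d x2 x0)) := fun x0 x1 x2 => ((congrArg (fun Z => (b Z (d x0 x2))) (e12 x0 x1).symm)).trans (e7 x0 (d x1 x0) x2)
  have e30 : ∀ x0 x1 , (d (b (d x0 x1) x0) x0) = (d (d x1 x0) (d x0 x0)) := fun x0 x1 => ((e9 x0 x0 (d x0 x1)).symm).trans (e29 x0 x1 x0)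
  have e37 : ∀ x0 x1 x2 , (b (d (d x0 x0) x1) (b x2 x2)) = (b (d (b x2 x2) x1) (d x0 x0)) := fun x0 x1 x2 => (((ax1 x1 (b x2 x2) (d x0 x0)).symm).trans (congrArg (fun Z => (d x1 Z)) (e18 x0 x2).symm)).trans (ax1 x1 (d x0 x0) (b x2 x2))
  have e38 : ∀ x0 x1 , (b (d x0 x0) (d x1 x1)) = (b (d x1 x1) (d x0 x0)) := fun x0 x1 => (((congrArg (fun Z => (b (d x0 x0) Z)) (e4 x1 x1).symm)).trans (e18 x0 (d x1 x1))).trans (congrArg (fun Z => (b Z (d x0 x0))) (e4 x1 x1))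
  have e43 : ∀ x0 x1 x2 , (b (d (b x0 x0) x1) (b x0 x2)) = (b (d x0 x1) (b (d x0 x0) x2)) := fun x0 x1 x2 => (((ax1 x1 (b x0 x2) (b x0 x0)).symm).trans (congrArg (fun Z => (d x1 Z)) (e28 x0 x2).symm)).trans (ax1 x1 (b (d x0 x0) x2) x0)
  have e49 : ∀ x0 x1 x2 , (b (d (d x0 x0) x1) (d x2 x2)) = (b (d (d x2 x2) x1) (d x0 x0)) := fun x0 x1 x2 => (((ax1 x1 (d x2 x2) (d x0 x0)).symm).trans (congrArg (fun Z => (d x1 Z)) (e38 x0 x2).symm)).trans (ax1 x1 (d x0 x0) (d x2 x2))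
  have e50 : ∀ x0 x1 , (b (b (d x0 x0) (d x1 x1)) (d x1 x1)) = (d (b (d x0 x0) x1) x1) := fun x0 x1 => ((congrArg (fun Z => (b Z (d x1 x1))) (e38 x1 x0).symm)).trans (e9 x1 x1 (d x0 x0))
  have e54 : ∀ x0 x1 , (d (d x0 x0) (d x1 x1)) = (b (d x1 x1) (d x0 x0)) := fun x0 x1 => ((((e22 x0 x1 x1).symm).trans (e49 x0 (d x1 x1) x1)).trans (congrArg (fun Z => (b Z (d x0 x0))) (e12 x1 x1))).trans (congrArg (fun Z => (b Z (d x0 x0))) (e4 x1 x1))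
  have e55 : ∀ x0 x1 x2 , (b (b (d x0 x0) (d x1 x1)) (d x0 x2)) = (d (d x1 x1) (d x2 x0)) := fun x0 x1 x2 => ((congrArg (fun Z => (b Z (d x0 x2))) (e54 x1 x0).symm)).trans (e22 x1 x0 x2)
  have e56 : ∀ x0 x1 , (d (b (d x0 x0) x1) x1) = (b (d x1 x1) (d x0 x0)) := fun x0 x1 => (((e9 x1 x1 (d x0 x0)).symm).trans (e55 x1 x0 x1)).trans (e54 x0 x1)
  have e58 : ∀ x0 x1 , (b (b (d x0 x0) (d x1 x1)) (b (d x0 x0) x1)) = (b (d x0 x0) x1) := fun x0 x1 => (((congrArg (fun Z => (b Z (b (d x0 x0) x1))) (e56 x1 x0).symm)).trans (congrArg (fun Z => (b Z (b (d x0 x0) x1))) (e50 x1 x0).symm)).trans (e5 x1 (d x0 x0))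
  have e62 : ∀ x0 x1 x2 , (d (b (b (d x0 x0) x1) x1) (d x2 x2)) = (b (b (b (d x0 x0) x1) x1) (d x2 x2)) := fun x0 x1 x2 => ((((((congrArg (fun Z => (d (b Z x1) (d x2 x2))) (ax1 x0 x1 x0).symm)).trans (congrArg (fun Z => (d Z (d x2 x2))) (ax1 (b x1 x0) x1 x0).symm)).trans (ax4 (b x1 x0) x2)).trans (e54 x2 (b x1 x0))).trans (congrArg (fun Z => (b Z (d x2 x2))) (ax1 (b x1 x0) x1 x0))).trans (congrArg (fun Z => (b (b Z x1) (d x2 x2))) (ax1 x0 x1 x0))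
  have e63 : ∀ x0 x1 , (d (b x0 x0) (d x1 x1)) = (b (b x0 x0) (d x1 x1)) := fun x0 x1 => ((((congrArg (fun Z => (d (b Z x0) (d x1 x1))) (ax2 x0).symm)).trans (e62 x0 x0 x1)).trans (congrArg (fun Z => (b Z (d x1 x1))) (e28 x0 x0))).trans (congrArg (fun Z => (b Z (d x1 x1))) (e6 x0))
  have e64 : ∀ x0 x1 x2 , (b (d x0 (d x1 x1)) (b (d x2 x2) x0)) = (b (d x1 x1) (b (b (d x2 x2) x0) x0)) := fun x0 x1 x2 => (((((((congrArg (fun Z => (b (d x0 (d x1 x1)) Z)) (ax1 x2 x0 x2).symm)).trans (ax1 (d x1 x1) (d x2 (b x0 x2)) x0).symm).trans (congrArg (fun Z => (d (d x1 x1) Z)) (ax1 (b x0 x2) x0 x2).symm)).trans (ax4 x1 (b x0 x2))).trans (e54 (b x0 x2) x1)).trans (congrArg (fun Z => (b (d x1 x1) Z)) (ax1 (b x0 x2) x0 x2))).trans (congrArg (fun Z => (b (d x1 x1) (b Z x0))) (ax1 x2 x0 x2))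
  have e65 : ∀ x0 x1 , (b (d x0 (d x1 x1)) x0) = (b (d x1 x1) (b x0 x0)) := fun x0 x1 => ((((congrArg (fun Z => (b (d x0 (d x1 x1)) Z)) (ax2 x0).symm)).trans (e64 x0 x1 x0)).trans (congrArg (fun Z => (b (d x1 x1) Z)) (e28 x0 x0))).trans (congrArg (fun Z => (b (d x1 x1) Z)) (e6 x0))
  have e66 : ∀ x0 x1 x2 , (b (d (b x0 x0) x1) (d x2 x2)) = (b (d x0 x1) (d x0 (d x2 x2))) := fun x0 x1 x2 => (((ax1 x1 (d x2 x2) (b x0 x0)).symm).trans (congrArg (fun Z => (d x1 Z)) (e65 x0 x2).symm)).trans (ax1 x1 (d x0 (d x2 x2)) x0)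
  have e67 : ∀ x0 x1 x2 , (b (d (d x0 x0) x1) (b x2 x2)) = (b (d x2 x1) (d x2 (d x0 x0))) := fun x0 x1 x2 => ((e37 x0 x1 x2)).trans (e66 x2 x1 x0)
  have e68 : ∀ x0 x1 x2 , (b (b (d x0 x0) (b x1 x1)) (d x0 x2)) = (d (b x1 x1) (d x2 x0)) := fun x0 x1 x2 => ((congrArg (fun Z => (b Z (d x0 x2))) (e65 x1 x0).symm)).trans (e20 x1 x0 x1 x2)
  have e71 : ∀ x0 x1 , (d (b (d x0 x0) (b x1 x1)) x1) = (d (d (d x0 x0) x1) (d x1 x1)) := fun x0 x1 => ((congrArg (fun Z => (d Z x1)) (e65 x1 x0).symm)).trans (e30 x1 (d x0 x0))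
  have e73 : ∀ x0 x1 , (b (b x0 x0) (d (b x0 x0) x1)) = (b x0 (d x0 x1)) := fun x0 x1 => ((((((congrArg (fun Z => (b Z (d (b x0 x0) x1))) (ax2 (b x0 x0)).symm)).trans (e68 (b x0 x0) x0 x1)).trans (congrArg (fun Z => (d (b x0 x0) Z)) (ax1 x1 x0 x0))).trans (ax1 (b x0 x0) (d x0 x1) x0)).trans (congrArg (fun Z => (b Z (d x0 x1))) (ax1 x0 x0 x0))).trans (congrArg (fun Z => (b Z (d x0 x1))) (ax2 x0))
  have e74 : ∀ x0 x1 x2 , (b (b (b x0 x0) (d x1 x1)) (d x1 x2)) = (d (b x0 x0) (d x2 x1)) := fun x0 x1 x2 => ((congrArg (fun Z => (b Z (d x1 x2))) (e18 x1 x0).symm)).trans (e68 x1 x0 x2)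
  have e77 : ∀ x0 x1 x2 , (b (b x0 x0) (b (b (d x0 x1) x0) x2)) = (b x0 (b (d x1 x0) x2)) := fun x0 x1 x2 => ((((congrArg (fun Z => (b (b x0 x0) (b Z x2))) (ax1 x1 x0 x0).symm)).trans (congrArg (fun Z => (b (b x0 x0) Z)) (ax1 (b x0 x0) x2 x1).symm)).trans (e73 x0 (b x2 x1))).trans (congrArg (fun Z => (b x0 Z)) (ax1 x0 x2 x1))
  have e78 : ∀ x0 x1 , (b (b x0 x0) (b x0 x1)) = (b x0 (b (d x0 x0) x1)) := fun x0 x1 => ((congrArg (fun Z => (b (b x0 x0) (b Z x1))) (ax2 x0).symm)).trans (e77 x0 x0 x1)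
  have e80 : ∀ x0 x1 x2 , (b (d (b (d x0 x0) x1) x2) x0) = (b (d (b x0 x1) x2) (b x0 x0)) := fun x0 x1 x2 => (((ax1 x2 x0 (b (d x0 x0) x1)).symm).trans (congrArg (fun Z => (d x2 Z)) (e78 x0 x1).symm)).trans (ax1 x2 (b x0 x0) (b x0 x1))
  have e105 : ∀ x0 x1 x2 x3 x4 , (b (d (d x0 x1) x2) (b (d x3 (d x0 x0)) x4)) = (d x2 (d (b x4 x3) (d x1 x0))) := fun x0 x1 x2 x3 x4 => ((congrArg (fun Z => (b (d (d x0 x1) x2) Z)) (ax1 (d x0 x0) x4 x3).symm)).trans (e19 x0 x1 x2 (b x4 x3))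
  have e111 : ∀ x0 x1 x2 x3 , (b (b (b (d x0 x0) (d x1 x1)) x2) (d x1 x3)) = (d (b x2 (d x0 x0)) (d x3 x1)) := fun x0 x1 x2 x3 => (((congrArg (fun Z => (b (b Z x2) (d x1 x3))) (e54 x1 x0).symm)).trans (congrArg (fun Z => (b (b Z x2) (d x1 x3))) (ax4 x0 x1).symm)).trans (e20 (d x0 x0) x1 x2 x3)
  have e112 : ∀ x0 x1 x2 , (d (b x0 (d x1 x1)) (d x2 x1)) = (b (b (d x1 x1) x0) (d x1 x2)) := fun x0 x1 x2 => ((e111 x1 x1 x0 x2).symm).trans (congrArg (fun Z => (b (b Z x0) (d x1 x2))) (e4 x1 x1))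
  have e113 : ∀ x0 x1 x2 x3 , (b (b (d x0 x0) (d x1 x1)) (b (d x2 x0) x3)) = (d (d x1 x1) (d (b x3 x2) x0)) := fun x0 x1 x2 x3 => (((congrArg (fun Z => (b Z (b (d x2 x0) x3))) (e54 x1 x0).symm)).trans (congrArg (fun Z => (b Z (b (d x2 x0) x3))) (ax4 x0 x1).symm)).trans (e21 x0 (d x1 x1) x2 x3)
  have e114 : ∀ x0 x1 , (d (d x0 x0) (d (b x0 x1) x1)) = (b (d x1 x1) x0) := fun x0 x1 => ((e113 x1 x0 x1 x0).symm).trans (e58 x1 x0)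
  have e123 : ∀ x0 x1 x2 x3 , (b (b (b (d x0 x1) x0) x2) (d (b x0 x0) x3)) = (b (b (d x1 x0) x2) (d x0 x3)) := fun x0 x1 x2 x3 => ((((congrArg (fun Z => (b (b Z x2) (d (b x0 x0) x3))) (ax1 x1 x0 x0).symm)).trans (congrArg (fun Z => (b Z (d (b x0 x0) x3))) (ax1 (b x0 x0) x2 x1).symm)).trans (e26 x0 (b x2 x1) x3)).trans (congrArg (fun Z => (b Z (d x0 x3))) (ax1 x0 x2 x1))
  have e124 : ∀ x0 x1 x2 , (b (b (d x0 x0) x1) (d x0 x2)) = (b (b x0 x1) (d (b x0 x0) x2)) := fun x0 x1 x2 => ((e123 x0 x0 x1 x2).symm).trans (congrArg (fun Z => (b (b Z x1) (d (b x0 x0) x2))) (ax2 x0))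
  have e125 : ∀ x0 x1 x2 , (b (b x0 (d x0 x1)) (d (b x0 x0) x2)) = (d (d x1 x0) (d x2 x0)) := fun x0 x1 x2 => ((e124 x0 (d x0 x1) x2).symm).trans (e29 x0 x1 x2)
  have e126 : ∀ x0 x1 x2 , (b (b x0 (d x1 x1)) (d (b x0 x0) x2)) = (d (d x1 x1) (d x2 x0)) := fun x0 x1 x2 => ((e124 x0 (d x1 x1) x2).symm).trans (e55 x0 x1 x2)
  have e127 : ∀ x0 x1 x2 , (b (b x0 (b x1 x1)) (d (b x0 x0) x2)) = (d (b x1 x1) (d x2 x0)) := fun x0 x1 x2 => ((e124 x0 (b x1 x1) x2).symm).trans (e68 x0 x1 x2)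
  have e134 : ∀ x0 x1 x2 , (d (b x0 (b (d x1 x2) x1)) x1) = (d (b x0 (d x2 x1)) (d x1 x1)) := fun x0 x1 x2 => (((e9 (b (d x1 x2) x1) x1 x0).symm).trans (congrArg (fun Z => (b (b Z x0) (d x1 x1))) (e30 x1 x2))).trans (e20 (d x2 x1) x1 x0 x1)
  have e144 : ∀ x0 x1 x2 x3 , (b (d (d x0 x0) x1) (d (b x2 x2) x3)) = (b (d (b x2 x2) x1) (d (d x0 x0) x3)) := fun x0 x1 x2 x3 => (((ax1 x1 (d (b x2 x2) x3) (d x0 x0)).symm).trans (congrArg (fun Z => (d x1 Z)) (e37 x0 x3 x2).symm)).trans (ax1 x1 (d (d x0 x0) x3) (b x2 x2))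
  have e145 : ∀ x0 x1 x2 x3 , (b (b (d x0 (d x1 x1)) x2) (b x3 x3)) = (b (b (d x0 x3) x2) (d x3 (d x1 x1))) := fun x0 x1 x2 x3 => ((((congrArg (fun Z => (b Z (b x3 x3))) (ax1 (d x1 x1) x2 x0).symm)).trans (e37 x1 (b x2 x0) x3)).trans (e66 x3 (b x2 x0) x1)).trans (congrArg (fun Z => (b Z (d x3 (d x1 x1)))) (ax1 x3 x2 x0))
  have e146 : ∀ x0 x1 , (b (b (d x0 x0) (b x1 x1)) (b x1 x1)) = (b x1 (d x1 (d x0 x0))) := fun x0 x1 => (((congrArg (fun Z => (b Z (b x1 x1))) (e65 x1 x0).symm)).trans (e145 x1 x0 x1 x1)).trans (congrArg (fun Z => (b Z (d x1 (d x0 x0)))) (ax2 x1))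
  have e149 : ∀ x0 x1 x2 x3 , (b (b (b (d x0 x1) x0) x2) (d x3 x3)) = (b (b (d x1 (d x3 x3)) x2) (b x0 x0)) := fun x0 x1 x2 x3 => ((((congrArg (fun Z => (b (b Z x2) (d x3 x3))) (ax1 x1 x0 x0).symm)).trans (congrArg (fun Z => (b Z (d x3 x3))) (ax1 (b x0 x0) x2 x1).symm)).trans (e37 x3 (b x2 x1) x0).symm).trans (congrArg (fun Z => (b Z (b x0 x0))) (ax1 (d x3 x3) x2 x1))
  have e150 : ∀ x0 x1 x2 , (b (b (d x0 (d x1 x1)) x2) (b x0 x0)) = (b (b x0 x2) (d x1 x1)) := fun x0 x1 x2 => ((e149 x0 x0 x2 x1).symm).trans (congrArg (fun Z => (b (b Z x2) (d x1 x1))) (ax2 x0))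
  have e151 : ∀ x0 x1 , (b (b x0 x0) (d x1 x1)) = (b x0 (d x0 (d x1 x1))) := fun x0 x1 => (((e150 x0 x1 x0).symm).trans (congrArg (fun Z => (b Z (b x0 x0))) (e65 x0 x1))).trans (e146 x1 x0)
  have e154 : ∀ x0 x1 , (d (b x0 x0) (d x1 x1)) = (b x0 (d x0 (d x1 x1))) := fun x0 x1 => ((e63 x0 x1)).trans (e151 x0 x1)
  have e162 : ∀ x0 x1 x2 , (b (b x0 x1) (b x0 (d x0 (d x2 x2)))) = (b (b x0 x1) (d x2 x2)) := fun x0 x1 x2 => ((((congrArg (fun Z => (b (b x0 x1) Z)) (e154 x0 x2).symm)).trans (e124 x0 x1 (d x2 x2)).symm).trans (e145 x0 x2 x1 x0).symm).trans (e150 x0 x2 x1)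
  have e163 : ∀ x0 x1 x2 , (b (d (d x0 (d x1 x1)) x2) x0) = (b (d (d x1 x1) x2) (b x0 x0)) := fun x0 x1 x2 => (((ax1 x2 x0 (d x0 (d x1 x1))).symm).trans (congrArg (fun Z => (d x2 Z)) (e151 x0 x1).symm)).trans (ax1 x2 (b x0 x0) (d x1 x1))
  have e165 : ∀ x0 x1 , (b (d x0 x1) (d (d x0 x1) (d x1 x1))) = (d (b (d x0 x1) x0) x1) := fun x0 x1 => ((e151 (d x0 x1) x1).symm).trans (e9 x0 x1 (d x0 x1))
  have e186 : ∀ x0 x1 x2 x3 , (b (b (b (d x0 x1) x0) x2) (b x0 x3)) = (b (b (d x1 x0) x2) (b (d x0 x0) x3)) := fun x0 x1 x2 x3 => ((((congrArg (fun Z => (b (b Z x2) (b x0 x3))) (ax1 x1 x0 x0).symm)).trans (congrArg (fun Z => (b Z (b x0 x3))) (ax1 (b x0 x0) x2 x1).symm)).trans (e43 x0 (b x2 x1) x3)).trans (congrArg (fun Z => (b Z (b (d x0 x0) x3))) (ax1 x0 x2 x1))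
  have e187 : ∀ x0 x1 x2 , (b (b (d x0 x0) x1) (b (d x0 x0) x2)) = (b (b x0 x1) (b x0 x2)) := fun x0 x1 x2 => ((e186 x0 x0 x1 x2).symm).trans (congrArg (fun Z => (b (b Z x1) (b x0 x2))) (ax2 x0))
  have e188 : ∀ x0 x1 x2 , (d (d x0 x0) (d (b x1 x2) x2)) = (b (b x2 (d x0 x0)) (b x2 x1)) := fun x0 x1 x2 => ((e113 x2 x0 x2 x1).symm).trans (e187 x2 (d x0 x0) x1)
  have e189 : ∀ x0 x1 , (b (b x0 (d x1 x1)) (b x0 x1)) = (b (d x0 x0) x1) := fun x0 x1 => ((e188 x1 x1 x0).symm).trans (e114 x1 x0)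
  have e192 : ∀ x0 x1 , (b (d (d x0 x1) (d x0 x1)) x0) = (b (d x1 x0) (b (d x0 x1) x0)) := fun x0 x1 => ((e189 (d x0 x1) x0).symm).trans (congrArg (fun Z => (b Z (b (d x0 x1) x0))) (e4 x0 x1))
  have e203 : ∀ x0 x1 , (b (b x0 (d x1 x1)) (b x0 (d x1 x1))) = (b (d x0 x0) (d x1 x1)) := fun x0 x1 => (((((e188 x1 (d x1 x1) x0).symm).trans (e113 x0 x1 x0 (d x1 x1)).symm).trans (congrArg (fun Z => (b Z (b (d x0 x0) (d x1 x1)))) (e56 x1 x0).symm)).trans (congrArg (fun Z => (b Z (b (d x0 x0) (d x1 x1)))) (e50 x1 x0).symm)).trans (e23 x1 (d x0 x0))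
  have e217 : ∀ x0 x1 x2 , (b (b (d x0 x1) x0) (b (d x2 x2) x1)) = (b x0 (b (d x1 x0) (b (d x2 x2) x1))) := fun x0 x1 x2 => (((((((((congrArg (fun Z => (b (b (d x0 x1) x0) Z)) (ax1 x2 x1 x2).symm)).trans (congrArg (fun Z => (b Z (d x2 (b x1 x2)))) (ax1 x1 x0 x0).symm)).trans (ax1 (b x0 x0) (d x2 (b x1 x2)) x1).symm).trans (congrArg (fun Z => (d (b x0 x0) Z)) (ax1 (b x1 x2) x1 x2).symm)).trans (e63 x0 (b x1 x2))).trans (e151 x0 (b x1 x2))).trans (congrArg (fun Z => (b x0 (d x0 Z))) (ax1 (b x1 x2) x1 x2))).trans (congrArg (fun Z => (b x0 Z)) (ax1 x0 (d x2 (b x1 x2)) x1))).trans (congrArg (fun Z => (b x0 (b (d x1 x0) Z))) (ax1 x2 x1 x2))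
  have e219 : ∀ x0 x1 , (b (b (d x0 x1) x0) x1) = (b x0 (b (d x1 x0) x1)) := fun x0 x1 => (((congrArg (fun Z => (b (b (d x0 x1) x0) Z)) (ax2 x1).symm)).trans (e217 x0 x1 x1)).trans (congrArg (fun Z => (b x0 (b (d x1 x0) Z))) (ax2 x1))
  have e220 : ∀ x0 x1 x2 , (b (d (b (d x0 x1) x0) x2) x1) = (b (d x0 x2) (b (d x1 x0) x1)) := fun x0 x1 x2 => (((ax1 x2 x1 (b (d x0 x1) x0)).symm).trans (congrArg (fun Z => (d x2 Z)) (e219 x1 x0).symm)).trans (ax1 x2 (b (d x1 x0) x1) x0)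
  have e226 : ∀ x0 x1 , (b (d (d x0 x1) (d x1 x1)) x0) = (b (d x1 x1) (b (d x0 x1) x0)) := fun x0 x1 => ((congrArg (fun Z => (b Z x0)) (e30 x1 x0).symm)).trans (e220 x1 x0 x1)
  have e230 : ∀ x0 x1 x2 , (d (d (d x0 x0) x1) (d x2 x1)) = (b (d x1 (d x0 x0)) (d x1 x2)) := fun x0 x1 x2 => ((((e125 x1 (d x0 x0) x2).symm).trans (congrArg (fun Z => (b Z (d (b x1 x1) x2))) (e151 x1 x0).symm)).trans (congrArg (fun Z => (b Z (d (b x1 x1) x2))) (e63 x1 x0).symm)).trans (e26 x1 (d x0 x0) x2)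
  have e231 : ∀ x0 x1 , (d (b (d x0 x0) (b x1 x1)) x1) = (d (d x0 x0) x1) := fun x0 x1 => (((e71 x0 x1)).trans (e230 x0 x1 x1)).trans (e4 x1 (d x0 x0))
  have e234 : ∀ x0 x1 , (b (d (b x0 (b x1 x1)) x1) (b x0 x0)) = (b (d (d x0 x0) x1) x0) := fun x0 x1 => ((e80 x0 (b x1 x1) x1).symm).trans (congrArg (fun Z => (b Z x0)) (e231 x0 x1))
  have e252 : ∀ x0 x1 x2 x3 , (b (d (d x0 (d x1 x1)) x2) (d x0 x3)) = (b (d (d x1 x1) x2) (d (b x0 x0) x3)) := fun x0 x1 x2 x3 => (((ax1 x2 (d x0 x3) (d x0 (d x1 x1))).symm).trans (congrArg (fun Z => (d x2 Z)) (e66 x0 x3 x1).symm)).trans (ax1 x2 (d (b x0 x0) x3) (d x1 x1))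
  have e265 : ∀ x0 x1 x2 x3 , (b (d (d x0 x1) x2) (b x3 (d x3 (d x0 x0)))) = (d x2 (d (b x3 x3) (d x1 x0))) := fun x0 x1 x2 x3 => (((congrArg (fun Z => (b (d (d x0 x1) x2) Z)) (e151 x3 x0).symm)).trans (ax1 x2 (b (b x3 x3) (d x0 x0)) (d x0 x1)).symm).trans (congrArg (fun Z => (d x2 Z)) (e74 x3 x0 x1))
  have e306 : ∀ x0 x1 x2 , (d (b (d x0 x0) (b x1 x1)) (d x2 x0)) = (d (b x1 x1) (d x2 x0)) := fun x0 x1 x2 => ((((congrArg (fun Z => (d Z (d x2 x0))) (e18 x0 x1))).trans (e112 (b x1 x1) x0 x2)).trans (e124 x0 (b x1 x1) x2)).trans (e127 x0 x1 x2)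
  have e308 : ∀ x0 x1 , (b (d x0 x1) (d (d x0 x1) (d x0 x1))) = (b (d x1 x1) (d x1 x0)) := fun x0 x1 => ((((e10 (d x0 x1)).symm).trans (e306 x1 (d x0 x1) x0).symm).trans (e231 x1 (d x0 x1))).trans (e12 x1 x0)
  have e320 : ∀ x0 x1 x2 x3 , (b (b (d x0 x0) x1) (b (d x2 x0) x3)) = (b (b x0 x1) (b (b (d x0 x2) x0) x3)) := fun x0 x1 x2 x3 => ((((congrArg (fun Z => (b (b (d x0 x0) x1) Z)) (ax1 x0 x3 x2).symm)).trans (e124 x0 x1 (b x3 x2))).trans (congrArg (fun Z => (b (b x0 x1) Z)) (ax1 (b x0 x0) x3 x2))).trans (congrArg (fun Z => (b (b x0 x1) (b Z x3))) (ax1 x2 x0 x0))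
  have e326 : ∀ x0 x1 x2 , (d (d x0 x0) (d (d x1 x1) x2)) = (b (b x2 (d x0 x0)) (d x1 x1)) := fun x0 x1 x2 => ((((e126 x2 x0 (d x1 x1)).symm).trans (congrArg (fun Z => (b (b x2 (d x0 x0)) Z)) (e63 x2 x1))).trans (congrArg (fun Z => (b (b x2 (d x0 x0)) Z)) (e151 x2 x1))).trans (e162 x2 (d x0 x0) x1)
  have e363 : ∀ x0 x1 x2 x3 , (b (d (b x0 x0) x1) (d (d x2 x2) x3)) = (b (d x0 x1) (d (d x0 (d x2 x2)) x3)) := fun x0 x1 x2 x3 => (((ax1 x1 (d (d x2 x2) x3) (b x0 x0)).symm).trans (congrArg (fun Z => (d x1 Z)) (e163 x0 x2 x3).symm)).trans (ax1 x1 (d (d x0 (d x2 x2)) x3) x0)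
  have e364 : ∀ x0 x1 x2 x3 , (b (d (d x0 x0) x1) (d (b x2 x2) x3)) = (b (d x2 x1) (d (d x2 (d x0 x0)) x3)) := fun x0 x1 x2 x3 => ((e144 x0 x1 x2 x3)).trans (e363 x2 x1 x0 x3)
  have e368 : ∀ x0 x1 x2 , (b (b (d x0 x1) x2) (d (b (d x0 x1) x0) x1)) = (d (b x2 x0) x1) := fun x0 x1 x2 => (((congrArg (fun Z => (b (b (d x0 x1) x2) Z)) (e165 x0 x1).symm)).trans (e162 (d x0 x1) x2 x1)).trans (e9 x0 x1 x2)
  have e369 : ∀ x0 x1 , (b (d x0 x1) (d (b (d x1 x0) x1) x0)) = (d x1 x0) := fun x0 x1 => (((congrArg (fun Z => (b Z (d (b (d x1 x0) x1) x0))) (e4 x1 x0).symm)).trans (e368 x1 x0 (d x1 x1))).trans (congrArg (fun Z => (d Z x0)) (ax2 x1))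
  have e371 : ∀ x0 x1 , (b (d x0 (d x1 x1)) (d (d x0 (d x1 x1)) x0)) = (d (d x1 x1) x0) := fun x0 x1 => ((congrArg (fun Z => (b (d x0 (d x1 x1)) (d Z x0))) (e7 x1 x0 x1).symm)).trans (e369 x0 (d x1 x1))
  have e374 : ∀ x0 x1 , (b (d x0 x0) (b x1 (d x1 x1))) = (d (d x0 x0) x1) := fun x0 x1 => (((((congrArg (fun Z => (b (d x0 x0) Z)) (e10 x1).symm)).trans (congrArg (fun Z => (b Z (d (b x1 x1) x1))) (e4 x0 x0).symm)).trans (congrArg (fun Z => (b Z (d (b x1 x1) x1))) (e12 x0 x0).symm)).trans (e364 x0 (d x0 x0) x1 x1)).trans (e371 x1 x0)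
  have e381 : ∀ x0 x1 x2 , (b (d x0 x0) (b (d x1 x1) (d x1 x2))) = (d (d x0 x0) (d x2 x1)) := fun x0 x1 x2 => ((congrArg (fun Z => (b (d x0 x0) Z)) (e308 x2 x1).symm)).trans (e374 x0 (d x2 x1))
  have e395 : ∀ x0 x1 x2 x3 , (b (d (b (d x0 x0) x1) x2) (b (d x0 x0) x3)) = (b (d (b x0 x1) x2) (b x0 x3)) := fun x0 x1 x2 x3 => (((ax1 x2 (b (d x0 x0) x3) (b (d x0 x0) x1)).symm).trans (congrArg (fun Z => (d x2 Z)) (e187 x0 x3 x1))).trans (ax1 x2 (b x0 x3) (b x0 x1))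
  have e430 : ∀ x0 x1 , (b (d x0 x0) (d (d x0 x1) (d x0 x1))) = (d (b (d x1 x0) x1) x0) := fun x0 x1 => (((((e56 (d x0 x1) x0).symm).trans (congrArg (fun Z => (d Z x0)) (e192 x0 x1))).trans (e134 (d x1 x0) x0 x1)).trans (e154 (d x1 x0) x0)).trans (e165 x1 x0)
  have e437 : ∀ x0 x1 , (d (b (d x0 x1) x0) x1) = (b (d x0 x1) (d x0 x1)) := fun x0 x1 => (((((e430 x1 x0).symm).trans (e38 (d x1 x0) x1).symm).trans (e203 (d x1 x0) x1).symm).trans (congrArg (fun Z => (b Z (b (d x1 x0) (d x1 x1)))) (e4 x1 x0))).trans (congrArg (fun Z => (b (d x0 x1) Z)) (e4 x1 x0))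
  have e444 : ∀ x0 x1 , (b (d x0 x1) (b (d x1 x0) (d x1 x0))) = (d x1 x0) := fun x0 x1 => ((congrArg (fun Z => (b (d x0 x1) Z)) (e437 x1 x0).symm)).trans (e369 x0 x1)
  have e455 : ∀ x0 x1 , (b (d (d x0 x0) x1) (b x1 x1)) = (d x1 (d x0 x0)) := fun x0 x1 => ((((((((((e163 x1 x0 x1).symm).trans (ax1 x1 x1 (d x1 (d x0 x0))).symm).trans (congrArg (fun Z => (d x1 Z)) (e154 x1 x0).symm)).trans (e265 x0 x0 x1 x1).symm).trans (congrArg (fun Z => (b (d (d x0 x0) x1) Z)) (e154 x1 x0).symm)).trans (e252 x1 x0 x1 (d x0 x0)).symm).trans (ax1 x1 (d x1 (d x0 x0)) (d x1 (d x0 x0))).symm).trans (congrArg (fun Z => (d x1 Z)) (e437 x1 (d x0 x0)).symm)).trans (e105 x0 x0 x1 x1 (d x1 (d x0 x0))).symm).trans (e444 (d x0 x0) x1)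
  have e458 : ∀ x0 x1 , (b (d x0 x0) (d x0 (d x1 x1))) = (d x0 (d x1 x1)) := fun x0 x1 => ((e67 x1 x0 x0).symm).trans (e455 x1 x0)
  have e467 : ∀ x0 x1 , (d (d x0 x1) (d x1 x1)) = (d x0 x1) := fun x0 x1 => (((((e455 x1 (d x0 x1)).symm).trans (e21 x1 (d x0 x1) x0 (d x0 x1))).trans (congrArg (fun Z => (d (d x0 x1) Z)) (e437 x0 x1))).trans (ax1 (d x0 x1) (d x0 x1) (d x0 x1))).trans (ax2 (d x0 x1))
  have e468 : ∀ x0 x1 , (d (b (d x0 x1) x0) x0) = (d x1 x0) := fun x0 x1 => ((e30 x0 x1)).trans (e467 x1 x0)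
  have e473 : ∀ x0 x1 , (b (d x0 x0) (b (d x1 x0) x1)) = (b (d x1 x0) x1) := fun x0 x1 => ((e226 x1 x0).symm).trans (congrArg (fun Z => (b Z x1)) (e467 x1 x0))
  have e479 : ∀ x0 x1 x2 , (b (b x0 (d x1 x1)) (d x2 x2)) = (b (d x1 x1) (d x0 (d x2 x2))) := fun x0 x1 x2 => (((e326 x1 x2 x0).symm).trans (e381 x1 x0 (d x2 x2)).symm).trans (congrArg (fun Z => (b (d x1 x1) Z)) (e458 x0 x2))
  have e501 : ∀ x0 x1 x2 , (b (d (b (d x0 x1) x0) x2) (d x1 x1)) = (b (d x0 x2) (d x0 x1)) := fun x0 x1 x2 => (((ax1 x2 (d x1 x1) (b (d x0 x1) x0)).symm).trans (congrArg (fun Z => (d x2 Z)) (e473 x1 x0))).trans (ax1 x2 (d x0 x1) x0)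
  have e502 : ∀ x0 x1 , (b (d x0 x0) (d x0 x1)) = (d x0 x1) := fun x0 x1 => (((e501 x0 x1 x0).symm).trans (congrArg (fun Z => (b Z (d x1 x1))) (e468 x0 x1))).trans (e4 x1 x0)
  have e503 : ∀ x0 x1 , (d (d x0 x0) (d x1 x0)) = (d x0 x1) := fun x0 x1 => ((e12 x0 x1)).trans (e502 x0 x1)
  have e514 : ∀ x0 x1 x2 , (d (d x0 x1) (d x2 x1)) = (b (d x1 x0) (d x1 x2)) := fun x0 x1 x2 => ((e7 x1 (d x0 x1) x2).symm).trans (congrArg (fun Z => (b Z (d x1 x2))) (e503 x1 x0))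
  have e531 : ∀ x0 x1 x2 , (d (b (d x0 x0) x1) x2) = (b (d x0 x0) (d x1 x2)) := fun x0 x1 x2 => ((((e9 x1 x2 (d x0 x0)).symm).trans (e479 (d x1 x2) x0 x2)).trans (congrArg (fun Z => (b (d x0 x0) Z)) (e514 x1 x2 x2))).trans (congrArg (fun Z => (b (d x0 x0) Z)) (e4 x2 x1))
  have e543 : ∀ x0 x1 x2 x3 , (b (d (b x0 x1) x2) (b x0 x3)) = (b (b x0 (d x1 x2)) (b x0 x3)) := fun x0 x1 x2 x3 => ((((e395 x0 x1 x2 x3).symm).trans (congrArg (fun Z => (b Z (b (d x0 x0) x3))) (e531 x0 x1 x2))).trans (e320 x0 (d x1 x2) x0 x3)).trans (congrArg (fun Z => (b (b x0 (d x1 x2)) (b Z x3))) (ax2 x0))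
  have e557 : ∀ x0 x1 x2 , (b (b (b (d x0 x0) x1) x1) (d (b x1 x0) x2)) = (d (b x1 x0) x2) := fun x0 x1 x2 => (((congrArg (fun Z => (b (b Z x1) (d (b x1 x0) x2))) (ax1 x0 x1 x0).symm)).trans (congrArg (fun Z => (b Z (d (b x1 x0) x2))) (ax1 (b x1 x0) x1 x0).symm)).trans (e502 (b x1 x0) x2)
  have e558 : ∀ x0 x1 , (d (b x0 x0) x1) = (b x0 (d x0 x1)) := fun x0 x1 => (((e557 x0 x0 x1).symm).trans (congrArg (fun Z => (b (b Z x0) (d (b x0 x0) x1))) (ax2 x0))).trans (e73 x0 x1)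
  have e597 : ∀ x0 x1 x2 , (b (b (d x0 x1) x0) x2) = (b x0 (b (d x1 x0) x2)) := fun x0 x1 x2 => ((((congrArg (fun Z => (b Z x2)) (ax1 x1 x0 x0).symm)).trans (ax1 (b x0 x0) x2 x1).symm).trans (e558 x0 (b x2 x1))).trans (congrArg (fun Z => (b x0 Z)) (ax1 x0 x2 x1))
  have e607 : ∀ x0 x1 , (b x0 (b (d x0 x0) x1)) = (b x0 x1) := fun x0 x1 => ((e597 x0 x0 x1).symm).trans (congrArg (fun Z => (b Z x1)) (ax2 x0))
  have e611 : ∀ x0 x1 x2 , (b (b x0 (d x1 x2)) (b x0 x0)) = (b (d x1 x2) x0) := fun x0 x1 x2 => (((((e28 x0 (d x1 x2)).symm).trans (congrArg (fun Z => (b Z x0)) (e531 x0 x1 x2).symm)).trans (ax1 x2 x0 (b (d x0 x0) x1)).symm).trans (congrArg (fun Z => (d x2 Z)) (e607 x0 x1))).trans (ax1 x2 x0 x1)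
  have e674 : ∀ x0 x1 , (b (b x0 (d x0 x0)) x1) = (b (d (d x1 x1) x0) x1) := fun x0 x1 => ((((congrArg (fun Z => (b Z x1)) (e558 x0 x0).symm)).trans (e611 x1 (b x0 x0) x0).symm).trans (e543 x1 (b x0 x0) x0 x1).symm).trans (e234 x1 x0)
  have goal0 : (d p (b q (d q q))) = (b (b p (d p p)) q) := ((ax1 p q (d q q))).trans (e674 p q).symm
  exact goal0

theorem t4 (b d : S → S → S)
    (ax1 : ∀ x0 x1 x2, (d x0 (b x1 x2)) = (b (d x2 x0) x1))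
    (ax2 : ∀ x0, (b (d x0 x0) x0) = x0)
    (ax3 : ∀ x0 x1, (b (b x0 x0) (b x1 x1)) = (b (b x1 x1) (b x0 x0)))
    (ax4 : ∀ x0 x1, (d (d x0 x0) (d x1 x1)) = (d (d x1 x1) (d x0 x0)))
    (ax5 : ∀ x0 x1, (d x0 (b x1 (d x1 x1))) = (b (b x0 (d x0 x0)) x1)) (p q : S) :
    (b (d p q) (d (d p q) (d p q))) = (d q p) := by
  have e5 : ∀ x0 x1 , (b (d x0 x1) (d x0 x0)) = (d x1 x0) := fun x0 x1 => ((ax1 x1 (d x0 x0) x0).symm).trans (congrArg (fun Z => (d x1 Z)) (ax2 x0))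
  have e6 : ∀ x0 x1 , (b (b (b (d x0 x0) x1) x1) (b x1 x0)) = (b x1 x0) := fun x0 x1 => (((congrArg (fun Z => (b (b Z x1) (b x1 x0))) (ax1 x0 x1 x0).symm)).trans (congrArg (fun Z => (b Z (b x1 x0))) (ax1 (b x1 x0) x1 x0).symm)).trans (ax2 (b x1 x0))
  have e7 : ∀ x0 , (b (b x0 x0) (b x0 x0)) = (b x0 x0) := fun x0 => ((congrArg (fun Z => (b (b Z x0) (b x0 x0))) (ax2 x0).symm)).trans (e6 x0 x0)
  have e9 : ∀ x0 x1 x2 , (b (d (d x0 x0) x1) (d x0 x2)) = (d x1 (d x2 x0)) := fun x0 x1 x2 => ((ax1 x1 (d x0 x2) (d x0 x0)).symm).trans (congrArg (fun Z => (d x1 Z)) (e5 x0 x2))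
  have e10 : ∀ x0 , (d (d x0 x0) (d x0 x0)) = (d x0 x0) := fun x0 => ((e9 x0 (d x0 x0) x0).symm).trans (ax2 (d x0 x0))
  have e11 : ∀ x0 x1 x2 , (b (b (d x0 x1) x2) (d x1 x1)) = (d (b x2 x0) x1) := fun x0 x1 x2 => ((congrArg (fun Z => (b Z (d x1 x1))) (ax1 x1 x2 x0).symm)).trans (e5 x1 (b x2 x0))
  have e12 : ∀ x0 , (d (b x0 x0) x0) = (b x0 (d x0 x0)) := fun x0 => ((e11 x0 x0 x0).symm).trans (congrArg (fun Z => (b Z (d x0 x0))) (ax2 x0))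
  have e13 : ∀ x0 x1 , (b (d (b x0 x0) x1) (b x0 x0)) = (b (d x0 x1) x0) := fun x0 x1 => (((ax1 x1 (b x0 x0) (b x0 x0)).symm).trans (congrArg (fun Z => (d x1 Z)) (e7 x0))).trans (ax1 x1 x0 x0)
  have e14 : ∀ x0 x1 , (d (d x0 x0) (d x1 x0)) = (b (d x0 x0) (d x0 x1)) := fun x0 x1 => ((e9 x0 (d x0 x0) x1).symm).trans (congrArg (fun Z => (b Z (d x0 x1))) (e10 x0))
  have e18 : ∀ x0 x1 x2 , (b (d (b x0 x0) x1) (b x2 x2)) = (b (d (b x2 x2) x1) (b x0 x0)) := fun x0 x1 x2 => (((ax1 x1 (b x2 x2) (b x0 x0)).symm).trans (congrArg (fun Z => (d x1 Z)) (ax3 x0 x2).symm)).trans (ax1 x1 (b x0 x0) (b x2 x2))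
  have e21 : ∀ x0 x1 , (b (d x0 x0) (b x1 x1)) = (b (b x1 x1) (d x0 x0)) := fun x0 x1 => (((congrArg (fun Z => (b Z (b x1 x1))) (e5 x0 x0).symm)).trans (ax3 (d x0 x0) x1)).trans (congrArg (fun Z => (b (b x1 x1) Z)) (e5 x0 x0))
  have e24 : ∀ x0 x1 x2 x3 , (b (b (d x0 (d x1 x1)) x2) (d x1 x3)) = (d (b x2 x0) (d x3 x1)) := fun x0 x1 x2 x3 => ((congrArg (fun Z => (b Z (d x1 x3))) (ax1 (d x1 x1) x2 x0).symm)).trans (e9 x1 (b x2 x0) x3)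
  have e25 : ∀ x0 x1 x2 x3 , (b (d (d x0 x0) x1) (b (d x2 x0) x3)) = (d x1 (d (b x3 x2) x0)) := fun x0 x1 x2 x3 => ((congrArg (fun Z => (b (d (d x0 x0) x1) Z)) (ax1 x0 x3 x2).symm)).trans (e9 x0 x1 (b x3 x2))
  have e27 : ∀ x0 x1 , (b (b x0 (d x0 x0)) (d x1 x1)) = (d x0 (d x1 x1)) := fun x0 x1 => ((((ax5 x0 (d x1 x1)).symm).trans (congrArg (fun Z => (d x0 (b (d x1 x1) Z))) (e10 x1))).trans (ax1 x0 (d x1 x1) (d x1 x1))).trans (e9 x1 x0 x1)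
  have e28 : ∀ x0 x1 , (b (d (d x0 x0) (d x1 x1)) x0) = (b (d x1 x1) x0) := fun x0 x1 => ((((ax1 (d x1 x1) x0 (d x0 x0)).symm).trans (ax5 (d x1 x1) x0)).trans (congrArg (fun Z => (b (b (d x1 x1) Z) x0)) (e10 x1))).trans (congrArg (fun Z => (b Z x0)) (e5 x1 x1))
  have e35 : ∀ x0 x1 x2 , (b (b (b (d x0 x1) x0) x2) (b x0 x0)) = (b (b (d x1 x0) x2) x0) := fun x0 x1 x2 => ((((congrArg (fun Z => (b (b Z x2) (b x0 x0))) (ax1 x1 x0 x0).symm)).trans (congrArg (fun Z => (b Z (b x0 x0))) (ax1 (b x0 x0) x2 x1).symm)).trans (e13 x0 (b x2 x1))).trans (congrArg (fun Z => (b Z x0)) (ax1 x0 x2 x1))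
  have e36 : ∀ x0 x1 , (b (b (d x0 x0) x1) x0) = (b (b x0 x1) (b x0 x0)) := fun x0 x1 => ((e35 x0 x0 x1).symm).trans (congrArg (fun Z => (b (b Z x1) (b x0 x0))) (ax2 x0))
  have e37 : ∀ x0 x1 x2 , (b (b (d x0 x0) (d x0 x1)) (d x0 x2)) = (d (d x1 x0) (d x2 x0)) := fun x0 x1 x2 => ((congrArg (fun Z => (b Z (d x0 x2))) (e14 x0 x1).symm)).trans (e9 x0 (d x1 x0) x2)
  have e38 : ∀ x0 x1 , (d (b (d x0 x1) x0) x0) = (d (d x1 x0) (d x0 x0)) := fun x0 x1 => ((e11 x0 x0 (d x0 x1)).symm).trans (e37 x0 x1 x0)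
  have e44 : ∀ x0 x1 , (b (b x0 (d x0 x0)) (b x1 x1)) = (b (d (b x1 x1) x0) (b x0 x0)) := fun x0 x1 => ((congrArg (fun Z => (b Z (b x1 x1))) (e12 x0).symm)).trans (e18 x0 x0 x1)
  have e45 : ∀ x0 x1 x2 , (b (d (d x0 x0) x1) (b x2 x2)) = (b (d (b x2 x2) x1) (d x0 x0)) := fun x0 x1 x2 => (((ax1 x1 (b x2 x2) (d x0 x0)).symm).trans (congrArg (fun Z => (d x1 Z)) (e21 x0 x2).symm)).trans (ax1 x1 (d x0 x0) (b x2 x2))
  have e48 : ∀ x0 x1 , (b (d x0 x0) (b (d x1 x0) (d x1 x0))) = (d (b (d x1 x0) x1) x0) := fun x0 x1 => ((e21 x0 (d x1 x0))).trans (e11 x1 x0 (d x1 x0))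
  have e51 : ∀ x0 x1 x2 , (b (d x0 x1) (d (d x0 x0) (d x2 x2))) = (b (d x0 x1) (d x2 x2)) := fun x0 x1 x2 => (((ax1 x1 (d (d x0 x0) (d x2 x2)) x0).symm).trans (congrArg (fun Z => (d x1 Z)) (e28 x0 x2))).trans (ax1 x1 (d x2 x2) x0)
  have e70 : ∀ x0 x1 , (b (d (d x0 x0) x1) (b x1 x1)) = (d x1 (d x0 x0)) := fun x0 x1 => (((e45 x0 x1 x1)).trans (congrArg (fun Z => (b Z (d x0 x0))) (e12 x1))).trans (e27 x1 x0)
  have e74 : ∀ x0 x1 , (d (d x0 x0) (d x1 x1)) = (b (d x0 x0) (d x1 x1)) := fun x0 x1 => (((e27 (d x0 x0) x1).symm).trans (congrArg (fun Z => (b Z (d x1 x1))) (e51 x0 x0 x0))).trans (congrArg (fun Z => (b Z (d x1 x1))) (e5 x0 x0))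
  have e76 : ∀ x0 x1 , (b (b x0 (d x1 x1)) (b x0 x0)) = (b (d x1 x1) x0) := fun x0 x1 => (((e36 x0 (d x1 x1)).symm).trans (congrArg (fun Z => (b Z x0)) (e74 x0 x1).symm)).trans (e28 x0 x1)
  have e95 : ∀ x0 x1 , (d (d x0 x1) (d (b (d x0 x1) x0) x1)) = (d (d x0 x1) (d x1 x1)) := fun x0 x1 => ((e25 x1 (d x0 x1) x0 (d x0 x1)).symm).trans (e70 x1 (d x0 x1))
  have e98 : ∀ x0 x1 , (b (d x0 x1) (b (d x1 x0) (d x1 x0))) = (b (d x1 x1) (d x1 x0)) := fun x0 x1 => ((congrArg (fun Z => (b Z (b (d x1 x0) (d x1 x0)))) (e5 x1 x0).symm)).trans (e76 (d x1 x0) x1)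
  have e115 : ∀ x0 x1 x2 , (b (d x0 (d x1 x1)) (b (d x2 x2) x0)) = (b (b (b (d x2 x2) x0) x0) (d x1 x1)) := fun x0 x1 x2 => (((((((congrArg (fun Z => (b (d x0 (d x1 x1)) Z)) (ax1 x2 x0 x2).symm)).trans (ax1 (d x1 x1) (d x2 (b x0 x2)) x0).symm).trans (congrArg (fun Z => (d (d x1 x1) Z)) (ax1 (b x0 x2) x0 x2).symm)).trans (ax4 x1 (b x0 x2))).trans (e74 (b x0 x2) x1)).trans (congrArg (fun Z => (b Z (d x1 x1))) (ax1 (b x0 x2) x0 x2))).trans (congrArg (fun Z => (b (b Z x0) (d x1 x1))) (ax1 x2 x0 x2))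
  have e116 : ∀ x0 x1 , (b (d x0 (d x1 x1)) x0) = (b (b x0 x0) (d x1 x1)) := fun x0 x1 => ((((congrArg (fun Z => (b (d x0 (d x1 x1)) Z)) (ax2 x0).symm)).trans (e115 x0 x1 x0)).trans (congrArg (fun Z => (b Z (d x1 x1))) (e36 x0 x0))).trans (congrArg (fun Z => (b Z (d x1 x1))) (e7 x0))
  have e117 : ∀ x0 x1 , (b (d x0 (d x1 x1)) x0) = (b (d x1 x1) (b x0 x0)) := fun x0 x1 => ((e116 x0 x1)).trans (e21 x1 x0).symm
  have e124 : ∀ x0 x1 x2 , (b (b (d x0 x0) (b x1 x1)) (d x0 x2)) = (d (b x1 x1) (d x2 x0)) := fun x0 x1 x2 => ((congrArg (fun Z => (b Z (d x0 x2))) (e117 x1 x0).symm)).trans (e24 x1 x0 x1 x2)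
  have e134 : ∀ x0 x1 , (b (b x0 x0) (d (b x0 x0) x1)) = (b x0 (d x0 x1)) := fun x0 x1 => ((((((congrArg (fun Z => (b Z (d (b x0 x0) x1))) (ax2 (b x0 x0)).symm)).trans (e124 (b x0 x0) x0 x1)).trans (congrArg (fun Z => (d (b x0 x0) Z)) (ax1 x1 x0 x0))).trans (ax1 (b x0 x0) (d x0 x1) x0)).trans (congrArg (fun Z => (b Z (d x0 x1))) (ax1 x0 x0 x0))).trans (congrArg (fun Z => (b Z (d x0 x1))) (ax2 x0))
  have e142 : ∀ x0 x1 , (b (b x0 (d x0 x0)) (b x1 x1)) = (b (d x1 x0) x1) := fun x0 x1 => (((((ax5 x0 (b x1 x1)).symm).trans (congrArg (fun Z => (d x0 Z)) (e134 x1 (b x1 x1)))).trans (ax1 x0 x1 (d x1 (b x1 x1)))).trans (congrArg (fun Z => (b (d Z x0) x1)) (ax1 x1 x1 x1))).trans (congrArg (fun Z => (b (d Z x0) x1)) (ax2 x1))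
  have e143 : ∀ x0 x1 , (b (d (b x0 x0) x1) (b x1 x1)) = (b (d x0 x1) x0) := fun x0 x1 => ((e44 x1 x0).symm).trans (e142 x1 x0)
  have e151 : ∀ x0 x1 , (b (b (d x0 x1) x0) x1) = (b (b x0 x0) (b x1 x1)) := fun x0 x1 => (((((congrArg (fun Z => (b Z x1)) (ax1 x1 x0 x0).symm)).trans (e142 (b x0 x0) x1).symm).trans (congrArg (fun Z => (b Z (b x1 x1))) (e134 x0 (b x0 x0)))).trans (congrArg (fun Z => (b (b x0 Z) (b x1 x1))) (ax1 x0 x0 x0))).trans (congrArg (fun Z => (b (b x0 Z) (b x1 x1))) (ax2 x0))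
  have e158 : ∀ x0 x1 x2 , (b (d (b x0 x0) x1) (b x2 x2)) = (b (d x0 x1) (b (d x2 x0) x2)) := fun x0 x1 x2 => (((ax1 x1 (b x2 x2) (b x0 x0)).symm).trans (congrArg (fun Z => (d x1 Z)) (e151 x2 x0).symm)).trans (ax1 x1 (b (d x2 x0) x2) x0)
  have e159 : ∀ x0 x1 x2 , (b (d x0 x1) (b (d x2 x0) x2)) = (b (d x2 x1) (b (d x0 x2) x0)) := fun x0 x1 x2 => (((e158 x0 x1 x2).symm).trans (e18 x0 x1 x2)).trans (e158 x2 x1 x0)
  have e160 : ∀ x0 x1 , (b (d x0 x1) (b (d x1 x0) x1)) = (b (d x0 x1) x0) := fun x0 x1 => ((e158 x0 x1 x1).symm).trans (e143 x0 x1)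
  have e161 : ∀ x0 x1 , (b (d x0 x0) (b (d x1 x0) x1)) = (b (d x1 x0) x1) := fun x0 x1 => ((e159 x1 x0 x0).symm).trans (e160 x1 x0)
  have e167 : ∀ x0 x1 x2 , (b (d (b (d x0 x1) x0) x2) (d x1 x0)) = (b (d x1 x2) (d x1 x0)) := fun x0 x1 x2 => (((ax1 x2 (d x1 x0) (b (d x0 x1) x0)).symm).trans (congrArg (fun Z => (d x2 Z)) (e160 x1 x0))).trans (ax1 x2 (d x1 x0) x1)
  have e168 : ∀ x0 x1 x2 , (b (d (b (d x0 x1) x0) x2) (d x1 x1)) = (b (d x0 x2) (d x0 x1)) := fun x0 x1 x2 => (((ax1 x2 (d x1 x1) (b (d x0 x1) x0)).symm).trans (congrArg (fun Z => (d x2 Z)) (e161 x1 x0))).trans (ax1 x2 (d x0 x1) x0)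
  have e174 : ∀ x0 x1 , (d (b (d x0 x1) x0) x1) = (b (d x0 x1) (d x0 x1)) := fun x0 x1 => ((((e48 x1 x0).symm).trans (e117 (d x0 x1) x1).symm).trans (congrArg (fun Z => (b Z (d x0 x1))) (e38 x1 x0).symm)).trans (e167 x1 x0 x1)
  have e177 : ∀ x0 x1 , (d (d x0 x1) (d x1 x1)) = (d x0 x1) := fun x0 x1 => ((((e95 x0 x1).symm).trans (congrArg (fun Z => (d (d x0 x1) Z)) (e174 x0 x1))).trans (ax1 (d x0 x1) (d x0 x1) (d x0 x1))).trans (ax2 (d x0 x1))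
  have e181 : ∀ x0 x1 , (b (d x0 x0) (d x0 x1)) = (d x0 x1) := fun x0 x1 => ((((e168 x0 x1 x0).symm).trans (congrArg (fun Z => (b Z (d x1 x1))) (e38 x0 x1))).trans (congrArg (fun Z => (b Z (d x1 x1))) (e177 x1 x0))).trans (e5 x1 x0)
  have e183 : ∀ x0 x1 x2 , (d (d x0 x1) (d x2 x1)) = (b (d x1 x0) (d x1 x2)) := fun x0 x1 x2 => ((e37 x1 x0 x2).symm).trans (congrArg (fun Z => (b Z (d x1 x2))) (e181 x1 x0))
  have e185 : ∀ x0 x1 , (b (d x0 x1) (b (d x1 x0) (d x1 x0))) = (d x1 x0) := fun x0 x1 => ((e98 x0 x1)).trans (e181 x1 x0)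
  have goal0 : (b (d p q) (d (d p q) (d p q))) = (d q p) := ((congrArg (fun Z => (b (d p q) Z)) (e183 p q p))).trans (e185 p q)
  exact goal0

theorem t4d (b d : S → S → S)
    (ax1 : ∀ x0 x1 x2, (d x0 (b x1 x2)) = (b (d x2 x0) x1))
    (ax2 : ∀ x0, (b (d x0 x0) x0) = x0)
    (ax3 : ∀ x0 x1, (b (b x0 x0) (b x1 x1)) = (b (b x1 x1) (b x0 x0)))
    (ax4 : ∀ x0 x1, (d (d x0 x0) (d x1 x1)) = (d (d x1 x1) (d x0 x0)))
    (ax5 : ∀ x0 x1, (d x0 (b x1 (d x1 x1))) = (b (b x0 (d x0 x0)) x1))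
    (ax6 : ∀ x0 x1, (b (d x0 x1) (d (d x0 x1) (d x0 x1))) = (d x1 x0)) (p q : S) :
    (b (b p q) (d (b p q) (b p q))) = (b q p) := by
  have e6 : ∀ x0 x1 , (b (d x0 x1) (d x0 x0)) = (d x1 x0) := fun x0 x1 => ((ax1 x1 (d x0 x0) x0).symm).trans (congrArg (fun Z => (d x1 Z)) (ax2 x0))
  have e7 : ∀ x0 x1 , (b (b (b (d x0 x0) x1) x1) (b x1 x0)) = (b x1 x0) := fun x0 x1 => (((congrArg (fun Z => (b (b Z x1) (b x1 x0))) (ax1 x0 x1 x0).symm)).trans (congrArg (fun Z => (b Z (b x1 x0))) (ax1 (b x1 x0) x1 x0).symm)).trans (ax2 (b x1 x0))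
  have e8 : ∀ x0 , (b (b x0 x0) (b x0 x0)) = (b x0 x0) := fun x0 => ((congrArg (fun Z => (b (b Z x0) (b x0 x0))) (ax2 x0).symm)).trans (e7 x0 x0)
  have e10 : ∀ x0 x1 x2 , (b (b x0 (d x0 x0)) (d x1 x2)) = (d x0 (d x2 x1)) := fun x0 x1 x2 => ((ax5 x0 (d x1 x2)).symm).trans (congrArg (fun Z => (d x0 Z)) (ax6 x1 x2))
  have e11 : ∀ x0 x1 x2 , (b (d (d x0 x0) (d x1 x2)) x0) = (b (d x2 x1) x0) := fun x0 x1 x2 => (((ax1 (d x1 x2) x0 (d x0 x0)).symm).trans (ax5 (d x1 x2) x0)).trans (congrArg (fun Z => (b Z x0)) (ax6 x1 x2))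
  have e12 : ∀ x0 x1 x2 , (b (d (d x0 x0) x1) (d x0 x2)) = (d x1 (d x2 x0)) := fun x0 x1 x2 => ((ax1 x1 (d x0 x2) (d x0 x0)).symm).trans (congrArg (fun Z => (d x1 Z)) (e6 x0 x2))
  have e14 : ∀ x0 x1 x2 , (b (b (d x0 x1) x2) (d x1 x1)) = (d (b x2 x0) x1) := fun x0 x1 x2 => ((congrArg (fun Z => (b Z (d x1 x1))) (ax1 x1 x2 x0).symm)).trans (e6 x1 (b x2 x0))
  have e15 : ∀ x0 , (d (b x0 x0) x0) = (b x0 (d x0 x0)) := fun x0 => ((e14 x0 x0 x0).symm).trans (congrArg (fun Z => (b Z (d x0 x0))) (ax2 x0))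
  have e16 : ∀ x0 x1 , (b (d (b x0 x0) x1) (b x0 x0)) = (b (d x0 x1) x0) := fun x0 x1 => (((ax1 x1 (b x0 x0) (b x0 x0)).symm).trans (congrArg (fun Z => (d x1 Z)) (e8 x0))).trans (ax1 x1 x0 x0)
  have e17 : ∀ x0 x1 x2 x3 , (d (d x0 x1) (d x2 x3)) = (b (d x1 x0) (d x3 x2)) := fun x0 x1 x2 x3 => ((e10 (d x0 x1) x3 x2).symm).trans (congrArg (fun Z => (b Z (d x3 x2))) (ax6 x0 x1))
  have e20 : ∀ x0 x1 x2 , (b (b (d x0 x0) (d x1 x2)) x0) = (b (d x1 x2) x0) := fun x0 x1 x2 => ((congrArg (fun Z => (b Z x0)) (e17 x0 x0 x2 x1).symm)).trans (e11 x0 x2 x1)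
  have e40 : ∀ x0 x1 x2 , (b (b (d x0 x0) (d x1 x1)) (d x1 x2)) = (b (d x0 x0) (d x1 x2)) := fun x0 x1 x2 => ((((congrArg (fun Z => (b Z (d x1 x2))) (e17 x0 x0 x1 x1).symm)).trans (congrArg (fun Z => (b Z (d x1 x2))) (ax4 x1 x0).symm)).trans (e12 x1 (d x0 x0) x2)).trans (e17 x0 x0 x2 x1)
  have e44 : ∀ x0 x1 , (b (b (d x0 x0) x1) x0) = (b x1 x0) := fun x0 x1 => (((((((congrArg (fun Z => (b Z x0)) (e20 x1 x0 x0).symm)).trans (congrArg (fun Z => (b (b Z x1) x0)) (e17 x1 x1 x0 x0).symm)).trans (congrArg (fun Z => (b Z x0)) (ax1 (d x0 x0) x1 (d x1 x1)).symm)).trans (congrArg (fun Z => (b (d (d x0 x0) Z) x0)) (e15 x1).symm)).trans (e11 x0 (b x1 x1) x1)).trans (congrArg (fun Z => (b Z x0)) (ax1 x1 x1 x1))).trans (congrArg (fun Z => (b Z x0)) (ax2 x1))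
  have e50 : ∀ x0 x1 x2 , (b (d (b x0 x0) x1) (d (b x0 x0) x2)) = (b (d x0 x1) (d x0 x2)) := fun x0 x1 x2 => (((ax1 x1 (d (b x0 x0) x2) (b x0 x0)).symm).trans (congrArg (fun Z => (d x1 Z)) (e16 x0 x2))).trans (ax1 x1 (d x0 x2) x0)
  have e51 : ∀ x0 x1 x2 , (b (b (b (d x0 x1) x0) x2) (b x0 x0)) = (b (b (d x1 x0) x2) x0) := fun x0 x1 x2 => ((((congrArg (fun Z => (b (b Z x2) (b x0 x0))) (ax1 x1 x0 x0).symm)).trans (congrArg (fun Z => (b Z (b x0 x0))) (ax1 (b x0 x0) x2 x1).symm)).trans (e16 x0 (b x2 x1))).trans (congrArg (fun Z => (b Z x0)) (ax1 x0 x2 x1))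
  have e52 : ∀ x0 x1 , (b (b x0 x1) (b x0 x0)) = (b x1 x0) := fun x0 x1 => (((congrArg (fun Z => (b (b Z x1) (b x0 x0))) (ax2 x0).symm)).trans (e51 x0 x0 x1)).trans (e44 x0 x1)
  have e53 : ∀ x0 x1 x2 , (b (d (b x0 x0) x1) (b x0 x2)) = (b (d x0 x1) x2) := fun x0 x1 x2 => (((ax1 x1 (b x0 x2) (b x0 x0)).symm).trans (congrArg (fun Z => (d x1 Z)) (e52 x0 x2))).trans (ax1 x1 x2 x0)
  have e79 : ∀ x0 x1 , (b (d x0 x0) (d x0 x1)) = (d x0 x1) := fun x0 x1 => (((e20 (d x0 x1) x0 x0).symm).trans (e40 (d x0 x1) x0 x1)).trans (ax2 (d x0 x1))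
  have e83 : ∀ x0 x1 , (d (b x0 x0) x1) = (b x0 (d x0 x1)) := fun x0 x1 => ((((e79 (b x0 x0) x1).symm).trans (e50 x0 (b x0 x0) x1)).trans (congrArg (fun Z => (b Z (d x0 x1))) (ax1 x0 x0 x0))).trans (congrArg (fun Z => (b Z (d x0 x1))) (ax2 x0))
  have e92 : ∀ x0 x1 x2 , (b (b (d x0 x1) x0) x2) = (b x0 (b (d x1 x0) x2)) := fun x0 x1 x2 => ((((congrArg (fun Z => (b Z x2)) (ax1 x1 x0 x0).symm)).trans (ax1 (b x0 x0) x2 x1).symm).trans (e83 x0 (b x2 x1))).trans (congrArg (fun Z => (b x0 Z)) (ax1 x0 x2 x1))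
  have e93 : ∀ x0 x1 , (b x0 (b (d x0 x0) x1)) = (b x0 x1) := fun x0 x1 => ((e92 x0 x0 x1).symm).trans (congrArg (fun Z => (b Z x1)) (ax2 x0))
  have e119 : ∀ x0 x1 , (b (b x0 x1) (b (b x1 x0) (b x1 x0))) = (b (b x1 x1) (b x1 x0)) := fun x0 x1 => ((congrArg (fun Z => (b Z (b (b x1 x0) (b x1 x0)))) (e52 x1 x0).symm)).trans (e52 (b x1 x0) (b x1 x1))
  have e121 : ∀ x0 x1 x2 x3 , (b (b x0 (b (d x1 x0) x2)) (b x0 x3)) = (b (b (d x1 x0) x2) x3) := fun x0 x1 x2 x3 => (((((congrArg (fun Z => (b Z (b x0 x3))) (e92 x0 x1 x2).symm)).trans (congrArg (fun Z => (b (b Z x2) (b x0 x3))) (ax1 x1 x0 x0).symm)).trans (congrArg (fun Z => (b Z (b x0 x3))) (ax1 (b x0 x0) x2 x1).symm)).trans (e53 x0 (b x2 x1) x3)).trans (congrArg (fun Z => (b Z x3)) (ax1 x0 x2 x1))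
  have e122 : ∀ x0 x1 , (b (b x0 x0) (b x0 x1)) = (b x0 x1) := fun x0 x1 => ((((congrArg (fun Z => (b (b x0 Z) (b x0 x1))) (ax2 x0).symm)).trans (e121 x0 x0 x0 x1)).trans (e92 x0 x0 x1)).trans (e93 x0 x1)
  have e123 : ∀ x0 x1 , (b (b x0 x1) (b (b x1 x0) (b x1 x0))) = (b x1 x0) := fun x0 x1 => ((e119 x0 x1)).trans (e122 x1 x0)
  have e124 : ∀ x0 x1 x2 , (b (b (d x0 x0) x1) x2) = (b (b x0 x1) (b x0 x2)) := fun x0 x1 x2 => ((e121 x0 x0 x1 x2).symm).trans (congrArg (fun Z => (b Z (b x0 x2))) (e93 x0 x1))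
  have goal0 : (b (b p q) (d (b p q) (b p q))) = (b q p) := ((((congrArg (fun Z => (b (b p q) Z)) (ax1 (b p q) p q))).trans (congrArg (fun Z => (b (b p q) (b Z p))) (ax1 q p q))).trans (congrArg (fun Z => (b (b p q) Z)) (e124 q p p))).trans (e123 p q)
  exact goal0

end Pool.Agent.Q281.DB
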